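import Pool.Agent.Lib.MP_ba0fa5_ag.Iface

/-!
# GPTS: all points
-/

set_option autoImplicit false

namespace Pool.Agent.Lib.MP_ba0fa5_ag.H65

open Finset Pool.Agent.Lib.MP_ba0fa5_ag
open scoped Classical

theorem self_mem_intCl (k K : Type) [Field k] [Field K] [Algebra k K] (x : K) :
    x ∈ intCl k K {x} := by
  rw [mem_intCl]
  have h : x ∈ Algebra.adjoin k {x} := Algebra.subset_adjoin rfl
  exact isIntegral_algebraMap (R := Algebra.adjoin k {x}) (A := K) (x := ⟨x, h⟩)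

/-- GPTS -/
theorem gpts (hA : GaffStmt) (hZ : GzeroStmt) (hO : GoneStmt) (hI : GinfStmt) : GptsStmt := by
  intro k K _ _ _ m a b ι y hk hm hζ F _ _ _
  have hm0 : 0 < m := hm.pos
  obtain ⟨x, hx⟩ : ∃ x : K, x = ι RatFunc.X := ⟨_, rfl⟩
  have hA' := hA k K m a b ι y hk hm0 hζ F
  have hZ' := hZ k K m a b ι y hk hm0 hζ F
  have hO' := hO k K m a b ι y hk hm0 hζ F
  have hI' := hI k K m a b ι y hk hm hζ F
  rw [← hx] at hA' hZ' hO' hI' ⊢
  rw [numPts, hI']
  have hmem := self_mem_intCl k K x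
  obtain ⟨ev, hev⟩ : ∃ ev : (intCl k K {x} →ₐ[k] F) → F, ev = fun φ => φ ⟨x, hmem⟩ := ⟨_, rfl⟩
  have hfib : ∀ c : F, Nonempty ({φ // ev φ = c} ≃ {φ : intCl k K {x} →ₐ[k] F //
      ∀ h : x ∈ intCl k K {x}, φ ⟨x, h⟩ = c}) := by
    intro c
    refine ⟨Equiv.subtypeEquivRight fun φ => ?_⟩
    rw [hev]
    exact ⟨fun h _ => h, fun h => h hmem⟩
  have hcard : ∀ c : F, Nat.card {φ // ev φ = c} = Nat.card {φ : intCl k K {x} →ₐ[k] F //
      ∀ h : x ∈ intCl k K {x}, φ ⟨x, h⟩ = c} := fun c => Nat.card_congr (hfib c).some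
  have hfin : ∀ c : F, Finite {φ // ev φ = c} := by
    intro c
    by_cases h0 : c = 0
    · refine Nat.finite_of_card_ne_zero ?_
      rw [hcard, h0, hZ']
      exact (Nat.gcd_pos_of_pos_right _ hm0).ne'
    · by_cases h1 : c = 1
      · refine Nat.finite_of_card_ne_zero ?_
        rw [hcard, h1, hO']
        exact (Nat.gcd_pos_of_pos_right _ hm0).ne'
      · have := (hA' c h0 h1).1
        exact Finite.of_equiv _ (hfib c).some.symm
  have htot : Nat.card (intCl k K {x} →ₐ[k] F) = ∑ c : F, Nat.card {φ // ev φ = c} := by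
    rw [← Nat.card_sigma]
    exact Nat.card_congr (Equiv.sigmaFiberEquiv ev).symm
  have hsplit : ∑ c : F, Nat.card {φ // ev φ = c} =
      (∑ c ∈ (Finset.univ : Finset F).filter (fun c => c ≠ 0 ∧ c ≠ 1),
        Nat.card {φ // ev φ = c}) + Nat.card {φ // ev φ = 0} + Nat.card {φ // ev φ = 1} := by
    have h1 : (Finset.univ : Finset F) = insert 0 (insert 1
        ((Finset.univ : Finset F).filter (fun c => c ≠ 0 ∧ c ≠ 1))) := by
      ext c
      simp only [mem_univ, mem_insert, mem_filter, true_and, true_iff]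
      tauto
    conv_lhs => rw [h1]
    rw [sum_insert (by simp), sum_insert (by simp)]
    ring
  rw [htot, hsplit, hcard 0, hcard 1, hZ', hO']
  congr 3
  refine sum_congr rfl fun c hc => ?_
  rw [mem_filter] at hc
  rw [hcard, (hA' c hc.2.1 hc.2.2).2]

end Pool.Agent.Lib.MP_ba0fa5_ag.H65
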