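import Pool.Agent.Lib.MP_ba0fa5_ag.Iface

/-!
# NFM: the first moment
-/

set_option autoImplicit false

namespace Pool.Agent.Lib.MP_ba0fa5_ag.H65

open Finset Pool.Agent.Lib.MP_ba0fa5_ag
open scoped Classical

/-- the primes `l` used for `t = (n, v, u, k)` -/
noncomputable def LL (S : Set ℕ) (X R : ℕ) (t : ℕ × ℕ × ℕ × ℕ) : Finset ℕ :=
  (Finset.Ioc R (X / (t.2.2.2 * hh t.1 t.2.1 t.2.2.1))).filter (fun l => l ∈ S)

theorem inQ_mul {S : Set ℕ} (hS : ∀ l ∈ S, l.Prime ∧ l ≠ 2) {l k : ℕ} (hl : l ∈ S)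
    (hk : InQ S k) : InQ S (l * k) := by
  refine ⟨Nat.mul_ne_zero (hS l hl).1.ne_zero hk.1, ?_⟩
  intro r hr hrd
  rcases (hr.dvd_mul).1 hrd with h | h
  · rw [(Nat.prime_dvd_prime_iff_eq hr (hS l hl).1).1 h]; exact hl
  · exact hk.2 r hr h

/-- NFM -/
theorem nfm (hGo : NgoodStmt) (hCn : NcntStmt) : NfmStmt := by
  intro S K hS hK
  obtain ⟨c', hc', Z₁, hGo⟩ := hGo S K hS hK
  obtain ⟨c, hc, y₀, hCn⟩ := hCn S hS
  have hK3 : 3 ≤ K := hK.1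
  obtain ⟨m, hm⟩ : ∃ m : ℕ, m = 3 * K + 12 * K * K := ⟨_, rfl⟩
  have hm1 : 1 ≤ m := by rw [hm]; omega
  obtain ⟨C₀, hC₀⟩ : ∃ C₀ : ℕ, 16 / c ≤ C₀ := exists_nat_ge _
  have hmR : (0 : ℝ) < m := by exact_mod_cast hm1
  refine ⟨c * c' / (32 * m), by positivity, max (max Z₁ y₀) (max C₀ 3), ?_⟩
  intro Z hZ
  have hZ1 : Z₁ ≤ Z := le_trans (le_trans (le_max_left _ _) (le_max_left _ _)) hZ
  have hZy : y₀ ≤ Z := le_trans (le_trans (le_max_right _ _) (le_max_left _ _)) hZ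
  have hZC : C₀ ≤ Z := le_trans (le_trans (le_max_left _ _) (le_max_right _ _)) hZ
  have hZ3 : 3 ≤ Z := le_trans (le_trans (le_max_right _ _) (le_max_right _ _)) hZ
  obtain ⟨q, hq⟩ : ∃ q : ℕ, q = Z ^ m := ⟨_, rfl⟩
  have hZq : Z ≤ q := by rw [hq]; exact Nat.le_self_pow (by omega) Z
  have hX : XX K Z = q ^ 8 := by
    rw [hq, ← pow_mul, XX, hm]
    congr 1
    ring
  obtain ⟨X, hXX⟩ : ∃ X : ℕ, X = XX K Z := ⟨_, rfl⟩
  have hXq : X = q ^ 8 := by rw [hXX, hX]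
  obtain ⟨good, hgood⟩ : ∃ good : Finset (ℕ × ℕ × ℕ × ℕ), good =
    (qset S Z (Z ^ K) ×ˢ qset S Z (Z ^ K) ×ˢ qset S (U1 K Z) (U2 K Z) ×ˢ
        qset S Z (Z ^ K)).filter (fun t => t.2.2.2.Coprime t.2.2.1 ∧ t.2.2.2.Coprime t.2.1 ∧
          t.2.2.1.Coprime t.2.1) := ⟨_, rfl⟩
  have hGoZ := hGo Z hZ1
  rw [← hgood] at hGoZ
  -- facts about the good quadruples
  have hmem : ∀ t ∈ good, (Z < t.1 ∧ t.1 ≤ Z ^ K ∧ InQ S t.1) ∧
      (Z < t.2.1 ∧ t.2.1 ≤ Z ^ K ∧ InQ S t.2.1) ∧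
      (U1 K Z < t.2.2.1 ∧ t.2.2.1 ≤ Z ^ (12 * K * K) ∧ InQ S t.2.2.1) ∧
      (Z < t.2.2.2 ∧ t.2.2.2 ≤ Z ^ K ∧ InQ S t.2.2.2) ∧
      t.2.2.2.Coprime t.2.2.1 ∧ t.2.2.2.Coprime t.2.1 ∧ t.2.2.1.Coprime t.2.1 := by
    intro t ht
    rw [hgood] at ht
    simp only [mem_filter, mem_product, qset, mem_Ioc] at ht
    obtain ⟨⟨h1, h2, h3, h4⟩, h5⟩ := ht
    exact ⟨⟨h1.1.1, h1.1.2, h1.2⟩, ⟨h2.1.1, h2.1.2, h2.2⟩, ⟨h3.1.1, h3.1.2, h3.2⟩,
      ⟨h4.1.1, h4.1.2, h4.2⟩, h5⟩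
  have hq1 : 1 ≤ q := by omega
  have hqq4 : q ≤ q ^ 4 := Nat.le_self_pow (by norm_num) q
  have hZpos : 0 < Z := by omega
  have hZKq : Z ^ K ≤ q := by
    rw [hq]; exact Nat.pow_le_pow_right hZpos (by rw [hm]; omega)
  have hUq : Z ^ (12 * K * K) ≤ q := by
    rw [hq]; exact Nat.pow_le_pow_right hZpos (by rw [hm]; omega)
  have hprodq : ∀ t ∈ good, t.2.2.2 * (t.1 * t.2.1 * t.2.2.1) ≤ q := by
    intro t ht
    obtain ⟨⟨-, h1, -⟩, ⟨-, h2, -⟩, ⟨-, h3, -⟩, ⟨-, h4, -⟩, -⟩ := hmem t ht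
    calc t.2.2.2 * (t.1 * t.2.1 * t.2.2.1) ≤ Z ^ K * (Z ^ K * Z ^ K * Z ^ (12 * K * K)) := by
          gcongr
      _ = q := by
          rw [hq, ← pow_add, ← pow_add, ← pow_add]
          congr 1
          rw [hm]; ring
  have hpos : ∀ t ∈ good, 0 < t.2.2.2 * (t.1 * t.2.1 * t.2.2.1) := by
    intro t ht
    obtain ⟨⟨h1, -, -⟩, ⟨h2, -, -⟩, ⟨h3, -, -⟩, ⟨h4, -, -⟩, -⟩ := hmem t ht
    have e1 : 0 < t.1 := by omega
    have e2 : 0 < t.2.1 := by omega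
    have e3 : 0 < t.2.2.1 := by omega
    have e4 : 0 < t.2.2.2 := by omega
    positivity
  have hhpos : ∀ t ∈ good, 1 ≤ hh t.1 t.2.1 t.2.2.1 := by
    intro t ht
    obtain ⟨⟨h1, -, -⟩, ⟨h2, -, -⟩, ⟨h3, -, -⟩, -, -⟩ := hmem t ht
    have e1 : 2 ≤ t.1 := by omega
    have e2 : 1 ≤ t.2.1 := by omega
    have e3 : 1 ≤ t.2.2.1 := by omega
    have : 2 * 1 * 1 ≤ t.1 * t.2.1 * t.2.2.1 := by gcongr
    unfold hh
    omega
  have hhle : ∀ t : ℕ × ℕ × ℕ × ℕ, hh t.1 t.2.1 t.2.2.1 ≤ t.1 * t.2.1 * t.2.2.1 := fun t =>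
    Nat.sub_le _ _
  -- the injection
  have hle : ∑ t ∈ good, (LL S X (q ^ 4) t).card ≤ (TT' S K Z).card := by
    rw [← Finset.card_sigma]
    refine card_le_card_of_injOn
      (fun s : (Σ _ : ℕ × ℕ × ℕ × ℕ, ℕ) => (s.1.1, s.1.2.1, s.1.2.2.1, s.2 * s.1.2.2.2)) ?_ ?_
    · rintro ⟨t, l⟩ hs
      simp only [coe_sigma, Set.mem_sigma_iff, mem_coe, LL, mem_filter, mem_Ioc] at hs
      obtain ⟨ht, ⟨hlR, hlX⟩, hlS⟩ := hs
      obtain ⟨⟨h1a, h1b, h1c⟩, ⟨h2a, h2b, h2c⟩, ⟨h3a, h3b, h3c⟩, ⟨h4a, h4b, h4c⟩, hco1, hco2,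
        hco3⟩ := hmem t ht
      have hlp := (hS.1 l hlS).1
      have hmul : l * (t.2.2.2 * hh t.1 t.2.1 t.2.2.1) ≤ X :=
        (Nat.mul_le_mul_right _ hlX).trans (Nat.div_mul_le_self _ _)
      have hh1 := hhpos t ht
      have hlkX : l * t.2.2.2 ≤ X := by
        refine le_trans ?_ hmul
        rw [← mul_assoc]
        exact Nat.le_mul_of_pos_right _ hh1
      have hcop : ∀ r, 0 < r → r ≤ q → l.Coprime r := by
        intro r hr0 hrq
        rw [hlp.coprime_iff_not_dvd]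
        intro hd
        have := Nat.le_of_dvd hr0 hd
        omega
      simp only [mem_coe, TT', TT, mem_filter, mem_product, qset, mem_Ioc]
      refine ⟨⟨⟨⟨⟨h1a, h1b⟩, h1c⟩, ⟨⟨h2a, h2b⟩, h2c⟩, ⟨⟨h3a, h3b⟩, h3c⟩, ⟨⟨?_, ?_⟩, ?_⟩⟩, ?_⟩,
        ?_, ?_, hco3⟩
      · exact Nat.mul_pos hlp.pos (by omega)
      · rw [← hXX]; exact hlkX
      · exact inQ_mul hS.1 hlS h4c
      · rw [← hXX, mul_assoc]; exact hmul
      · exact Nat.Coprime.mul_left (hcop _ (by omega) (h3b.trans hUq)) hco1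
      · exact Nat.Coprime.mul_left (hcop _ (by omega) (h2b.trans hZKq)) hco2
    · rintro ⟨⟨n, v, u, k⟩, l⟩ hs ⟨⟨n', v', u', k'⟩, l'⟩ hs' he
      simp only [coe_sigma, Set.mem_sigma_iff, mem_coe, LL, mem_filter, mem_Ioc] at hs hs'
      simp only [Prod.mk.injEq] at he
      obtain ⟨hn, hv, hu, hk⟩ := he
      obtain ⟨ht, ⟨hlR, -⟩, hlS⟩ := hs
      obtain ⟨ht', ⟨hlR', -⟩, hlS'⟩ := hs'
      obtain ⟨-, -, -, ⟨h4a, h4b, -⟩, -⟩ := hmem _ ht
      obtain ⟨-, -, -, ⟨h4a', h4b', -⟩, -⟩ := hmem _ ht'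
      simp only at h4a h4b h4a' h4b'
      have hlp := (hS.1 l hlS).1
      have hlp' := (hS.1 l' hlS').1
      have hll : l = l' := by
        have hd : l ∣ l' * k' := ⟨k, hk.symm⟩
        rcases (hlp.dvd_mul).1 hd with h | h
        · exact (Nat.prime_dvd_prime_iff_eq hlp hlp').1 h
        · have := Nat.le_of_dvd (by omega) h
          omega
      subst hn hv hu hll
      have hkk : k = k' := Nat.eq_of_mul_eq_mul_left hlp.pos hk
      subst hkk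
      rfl
  -- the lower bound for every `t`
  have hqR : (1 : ℝ) ≤ q := by exact_mod_cast hq1
  have hq3 : (3 : ℝ) ≤ q := by exact_mod_cast hZ3.trans hZq
  have hlogq : 0 < Real.log q := Real.log_pos (by linarith)
  have hXR : (X : ℝ) = (q : ℝ) ^ 8 := by rw [hXq]; push_cast; rfl
  have hlow : ∀ t ∈ good, c * X / (32 * Real.log q) *
      ((1 : ℝ) / (t.1 * t.2.1 * t.2.2.1 * t.2.2.2)) ≤ ((LL S X (q ^ 4) t).card : ℝ) := by
    intro t ht
    obtain ⟨y, hy⟩ : ∃ y : ℕ, y = X / (t.2.2.2 * hh t.1 t.2.1 t.2.2.1) := ⟨_, rfl⟩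
    have hkh : t.2.2.2 * hh t.1 t.2.1 t.2.2.1 ≤ t.2.2.2 * (t.1 * t.2.1 * t.2.2.1) :=
      Nat.mul_le_mul_left _ (hhle t)
    have hkh0 : 0 < t.2.2.2 * hh t.1 t.2.1 t.2.2.1 := by
      have h1 := hpos t ht
      have h2 := hhpos t ht
      have h3 : 0 < t.2.2.2 := Nat.pos_of_mul_pos_right h1
      exact Nat.mul_pos h3 h2
    have hyq : q ^ 7 ≤ y := by
      rw [hy, Nat.le_div_iff_mul_le hkh0, hXq]
      calc q ^ 7 * (t.2.2.2 * hh t.1 t.2.1 t.2.2.1) ≤ q ^ 7 * q :=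
            Nat.mul_le_mul_left _ (hkh.trans (hprodq t ht))
        _ = q ^ 8 := by ring
    have hyX : y ≤ X := by rw [hy]; exact Nat.div_le_self _ _
    have hyqR : (q : ℝ) ^ 7 ≤ y := by exact_mod_cast hyq
    have hyXR : (y : ℝ) ≤ (q : ℝ) ^ 8 := by rw [← hXR]; exact_mod_cast hyX
    have hq7 : (q : ℝ) ≤ (q : ℝ) ^ 7 := le_self_pow₀ hqR (by norm_num)
    have hy1 : (1 : ℝ) < y := by linarith
    have hlogy : 0 < Real.log y := Real.log_pos hy1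
    have hlogyX : Real.log y ≤ 8 * Real.log q := by
      calc Real.log y ≤ Real.log ((q : ℝ) ^ 8) := Real.log_le_log (by linarith) hyXR
        _ = 8 * Real.log q := by rw [Real.log_pow]; norm_num
    have hcn := hCn y (by
      have : q ≤ q ^ 7 := Nat.le_self_pow (by norm_num) q
      omega)
    -- the number of primes in `(q^4, y]`
    have hcard : (((Finset.Icc 1 y).filter (fun l => l ∈ S)).card : ℝ) ≤
        ((LL S X (q ^ 4) t).card : ℝ) + (q : ℝ) ^ 4 := by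
      have h1 : (Finset.Icc 1 y).filter (fun l => l ∈ S) ⊆
          LL S X (q ^ 4) t ∪ Finset.Icc 1 (q ^ 4) := by
        intro l hl
        simp only [mem_filter, mem_Icc, mem_union, LL, mem_Ioc] at hl ⊢
        rw [← hy]
        by_cases h : q ^ 4 < l
        · exact Or.inl ⟨⟨h, hl.1.2⟩, hl.2⟩
        · exact Or.inr ⟨hl.1.1, by omega⟩
      have h2 := (card_le_card h1).trans (card_union_le _ _)
      rw [Nat.card_Icc] at h2
      have h3 : ((Finset.Icc 1 y).filter (fun l => l ∈ S)).card ≤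
          (LL S X (q ^ 4) t).card + q ^ 4 := by omega
      exact_mod_cast h3
    have hbig : (q : ℝ) ^ 4 ≤ c * y / (2 * (8 * Real.log q)) := by
      rw [le_div_iff₀ (by positivity)]
      have h1 : Real.log q ≤ q := (Real.log_le_sub_one_of_pos (by linarith)).trans (by linarith)
      have h2 : 16 / c ≤ q := hC₀.trans (by exact_mod_cast hZC.trans hZq)
      have h3 : 16 ≤ c * q := by rwa [div_le_iff₀' hc] at h2
      calc (q : ℝ) ^ 4 * (2 * (8 * Real.log q)) ≤ (q : ℝ) ^ 4 * (2 * (8 * q)) := by gcongr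
        _ = 16 * (q : ℝ) ^ 5 := by ring
        _ ≤ (c * q) * (q : ℝ) ^ 5 := by gcongr
        _ = c * (q : ℝ) ^ 6 := by ring
        _ ≤ c * (q : ℝ) ^ 7 :=
            mul_le_mul_of_nonneg_left (pow_le_pow_right₀ hqR (by norm_num)) hc.le
        _ ≤ c * y := by gcongr
    have hc1 : c * y / (8 * Real.log q) ≤ c * y / Real.log y := by gcongr
    have hhalf : c * y / (2 * (8 * Real.log q)) ≤ ((LL S X (q ^ 4) t).card : ℝ) := by
      have h1 : c * y / (8 * Real.log q) = c * y / (2 * (8 * Real.log q)) +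
          c * y / (2 * (8 * Real.log q)) := by field_simp; ring
      have hcn' : c * y / Real.log y ≤
        (((Finset.Icc 1 y).filter (fun l => l ∈ S)).card : ℝ) := hcn
      linarith
    refine le_trans ?_ hhalf
    -- `X / (2 k n v u) ≤ y`
    have hP0 : (0 : ℝ) < t.1 * t.2.1 * t.2.2.1 * t.2.2.2 := by
      have := hpos t ht
      have h2 : 0 < t.1 * t.2.1 * t.2.2.1 * t.2.2.2 := by rw [mul_comm]; exact this
      exact_mod_cast h2
    have hyge : (X : ℝ) ≤ 2 * y * (t.1 * t.2.1 * t.2.2.1 * t.2.2.2) := by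
      have h1 : X < (y + 1) * (t.2.2.2 * hh t.1 t.2.1 t.2.2.1) := by
        rw [hy]
        have := Nat.lt_div_mul_add (a := X) hkh0
        calc X < X / (t.2.2.2 * hh t.1 t.2.1 t.2.2.1) * (t.2.2.2 * hh t.1 t.2.1 t.2.2.1) +
              (t.2.2.2 * hh t.1 t.2.1 t.2.2.1) := this
          _ = _ := by ring
      have h2 : X ≤ (2 * y) * (t.2.2.2 * (t.1 * t.2.1 * t.2.2.1)) := by
        refine h1.le.trans (Nat.mul_le_mul ?_ hkh)
        have : 1 ≤ y := by exact_mod_cast hy1.le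
        omega
      calc (X : ℝ) ≤ ((2 * y) * (t.2.2.2 * (t.1 * t.2.1 * t.2.2.1)) : ℕ) := by exact_mod_cast h2
        _ = 2 * y * (t.1 * t.2.1 * t.2.2.1 * t.2.2.2) := by push_cast; ring
    have h3 : (X : ℝ) * ((1 : ℝ) / (t.1 * t.2.1 * t.2.2.1 * t.2.2.2)) ≤ 2 * y := by
      rw [mul_one_div, div_le_iff₀ hP0]
      exact hyge
    calc c * X / (32 * Real.log q) * ((1 : ℝ) / (t.1 * t.2.1 * t.2.2.1 * t.2.2.2))
        = c / (32 * Real.log q) * (X * ((1 : ℝ) / (t.1 * t.2.1 * t.2.2.1 * t.2.2.2))) := by ring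
      _ ≤ c / (32 * Real.log q) * (2 * y) := by gcongr
      _ = c * y / (2 * (8 * Real.log q)) := by field_simp; ring
  have hlogqZ : Real.log q = m * Real.log Z := by
    rw [hq]; push_cast; rw [Real.log_pow]
  have hlogZ : 0 < Real.log Z := Real.log_pos (by exact_mod_cast (by omega : 1 < Z))
  calc c * c' / (32 * m) * (XX K Z : ℕ) = c * X / (32 * Real.log q) * (c' * Real.log Z) := by
        rw [hlogqZ, ← hXX]
        field_simp
    _ ≤ c * X / (32 * Real.log q) *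
        ∑ t ∈ good, (1 : ℝ) / (t.1 * t.2.1 * t.2.2.1 * t.2.2.2) := by gcongr
    _ = ∑ t ∈ good, c * X / (32 * Real.log q) *
        ((1 : ℝ) / (t.1 * t.2.1 * t.2.2.1 * t.2.2.2)) := by rw [mul_sum]
    _ ≤ ∑ t ∈ good, ((LL S X (q ^ 4) t).card : ℝ) := sum_le_sum hlow
    _ = ((∑ t ∈ good, (LL S X (q ^ 4) t).card : ℕ) : ℝ) := by push_cast; rfl
    _ ≤ ((TT' S K Z).card : ℝ) := by exact_mod_cast hle

end Pool.Agent.Lib.MP_ba0fa5_ag.H65
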