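import Pool.Agent.Lib.MP_ba0fa5_ag.Iface

/-!
# NLINK: members of `<QQ p>` divide `p ^ i + 1`
-/

set_option autoImplicit false

namespace Pool.Agent.Lib.MP_ba0fa5_ag.H65

open Finset Pool.Agent.Lib.MP_ba0fa5_ag

/-- Prime powers. -/
theorem link_pow (p l : ℕ) (hl : l ∈ QQ p) (k : ℕ) :
    l ^ (k + 1) ∣ p ^ (l / 2 * l ^ k) + 1 := by
  obtain ⟨hpr, h4, hsq⟩ := hl
  have : Fact l.Prime := ⟨hpr⟩
  have h0 : ((p : ℕ) : ZMod l) ≠ 0 := by
    intro h
    exact hsq (by rw [h]; exact ⟨0, by simp⟩)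
  have h1 : ((p : ℕ) : ZMod l) ^ (l / 2) = -1 := by
    rcases ZMod.pow_div_two_eq_neg_one_or_one l h0 with h | h
    · exact absurd ((ZMod.euler_criterion l h0).2 h) hsq
    · exact h
  have h2 : (l : ℤ) ∣ (p : ℤ) ^ (l / 2) - (-1) := by
    rw [← ZMod.intCast_zmod_eq_zero_iff_dvd]
    push_cast
    rw [h1]
    ring
  have h3 := dvd_sub_pow_of_dvd_sub h2 k
  have hodd : Odd (l ^ k) := by
    refine Odd.pow ?_
    rw [Nat.odd_iff]
    omega
  rw [hodd.neg_one_pow, sub_neg_eq_add, ← pow_mul] at h3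
  exact_mod_cast h3

/-- NLINK -/
theorem nlink : NlinkStmt := by
  intro p m hp hm
  have hodd : ∀ l ∈ QQ p, l % 2 = 1 ∧ (l / 2) % 2 = 1 := by
    rintro l ⟨-, h4, -⟩
    omega
  refine ⟨?_, ?_⟩
  · by_contra hcon
    rw [Nat.not_odd_iff_even, even_iff_two_dvd] at hcon
    have h1 := hodd 2 (hm.2 2 Nat.prime_two hcon)
    omega
  · obtain ⟨f, hf⟩ : ∃ f : ℕ → ℕ, f = fun l => l / 2 * l ^ m := ⟨_, rfl⟩
    have hfodd : ∀ l ∈ m.primeFactors, Odd (f l) := by
      intro l hl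
      have h1 := hodd l (hm.2 l (Nat.prime_of_mem_primeFactors hl)
        (Nat.dvd_of_mem_primeFactors hl))
      rw [hf]
      exact Odd.mul (Nat.odd_iff.2 h1.2) (Odd.pow (Nat.odd_iff.2 h1.1))
    have hprod : ∀ s : Finset ℕ, s ⊆ m.primeFactors → Odd (∏ l ∈ s, f l) := by
      intro s hs
      exact Finset.prod_induction f Odd (fun _ _ ha hb => ha.mul hb) odd_one
        (fun l hl => hfodd l (hs hl))
    refine ⟨∏ l ∈ m.primeFactors, f l, (hprod _ Subset.rfl).pos, ?_⟩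
    rw [Nat.dvd_iff_prime_pow_dvd_dvd]
    intro l k hl hk
    rcases Nat.eq_zero_or_pos k with h0 | hk0
    · subst h0; simp
    · have hlm : l ∣ m := (dvd_pow_self l hk0.ne').trans hk
      have hlpf : l ∈ m.primeFactors := Nat.mem_primeFactors.2 ⟨hl, hlm, hm.1⟩
      have hkm : k ≤ m + 1 := by
        have h1 : k < l ^ k := Nat.lt_pow_self hl.one_lt
        have h2 := Nat.le_of_dvd (Nat.pos_of_ne_zero hm.1) hk
        omega
      refine (pow_dvd_pow l hkm).trans ((link_pow p l (hm.2 l hl hlm) m).trans ?_)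
      rw [← Finset.mul_prod_erase _ _ hlpf]
      have h1 : p ^ (l / 2 * l ^ m) = p ^ f l := by rw [hf]
      rw [h1, pow_mul]
      have h2 := Odd.nat_add_dvd_pow_add_pow (p ^ f l) 1
        (hprod (m.primeFactors.erase l) (Finset.erase_subset _ _))
      rwa [one_pow] at h2

end Pool.Agent.Lib.MP_ba0fa5_ag.H65
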