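import Pool.Agent.Lib.MP_ba0fa5_ag.Iface

/-!
# NSINGLE: numbers composed of primes of `S` in a progression
-/

set_option autoImplicit false

namespace Pool.Agent.Lib.MP_ba0fa5_ag.H65

open Finset Pool.Agent.Lib.MP_ba0fa5_ag
open scoped Classical

/-- The product of `1 + 1/l` over the prime factors of `t` is at most `t / φ(t)`. -/
theorem prod_pf_le (t : ℕ) (ht : 1 ≤ t) :
    (∏ l ∈ t.primeFactors, (1 + 1 / (l : ℝ))) * (t.totient / t) ≤ 1 := by
  have h1 : (t.totient : ℝ) = t * ∏ l ∈ t.primeFactors, (1 - (l : ℝ)⁻¹) := by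
    have := Nat.totient_eq_mul_prod_factors t
    have h2 := congrArg (fun q : ℚ => (q : ℝ)) this
    push_cast at h2
    exact h2
  have ht0 : (t : ℝ) ≠ 0 := by positivity
  have h2 : (t.totient : ℝ) / t = ∏ l ∈ t.primeFactors, (1 - (l : ℝ)⁻¹) := by
    rw [h1]; field_simp
  rw [h2, ← Finset.prod_mul_distrib]
  refine Finset.prod_le_one (fun l hl => ?_) (fun l hl => ?_)
  · have hl2 : (2 : ℝ) ≤ l := by exact_mod_cast (Nat.prime_of_mem_primeFactors hl).two_le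
    have : (l : ℝ)⁻¹ ≤ 1 := inv_le_one_of_one_le₀ (by linarith)
    have h3 : (0 : ℝ) ≤ 1 - (l : ℝ)⁻¹ := by linarith
    positivity
  · have hl2 : (2 : ℝ) ≤ l := by exact_mod_cast (Nat.prime_of_mem_primeFactors hl).two_le
    rw [one_div]
    nlinarith [sq_nonneg ((l : ℝ)⁻¹)]

theorem one_add_ge (x : ℝ) (hx : 0 ≤ x) : Real.exp (x - x ^ 2) ≤ 1 + x := by
  have h1 : (0 : ℝ) < 1 + x := by linarith
  rw [← Real.exp_log h1]
  refine Real.exp_le_exp.2 ?_
  have h2 := Real.one_sub_inv_le_log_of_pos h1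
  refine le_trans ?_ h2
  have h3 : 1 - (1 + x)⁻¹ = x / (1 + x) := by field_simp; ring
  rw [h3, le_div_iff₀ h1]
  nlinarith [pow_nonneg hx 3]

theorem sum_inv_sq_le (z : ℕ) : ∑ l ∈ Icc 1 z, ((l : ℝ) ^ 2)⁻¹ ≤ 2 := by
  rcases Nat.eq_zero_or_pos z with h0 | hz
  · subst h0; simp
  · have h1 : Icc 1 z = insert 1 (Ioc 1 z) := by
      ext i; simp only [mem_Icc, mem_insert, mem_Ioc]; omega
    rw [h1, sum_insert (by simp)]
    have h2 := sum_Ioc_inv_sq_le_sub (α := ℝ) (k := 1) (n := z) one_ne_zero hz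
    have h3 : (0 : ℝ) ≤ (z : ℝ)⁻¹ := by positivity
    push_cast at h2 ⊢
    norm_num at h2 ⊢
    linarith

/-- The product of `1 + 1/l` over the primes `l ≤ z` outside `S`. -/
theorem prod_out_ge (S : Set ℕ) (C₁ : ℝ) (z : ℕ) (hz : 3 ≤ z)
    (h : |∑ l ∈ (Finset.Icc 1 z).filter (fun l => l.Prime ∧ l ∉ S), (1 : ℝ) / l
      - 3 * Real.log (Real.log z) / 4| ≤ C₁) :
    Real.exp (-C₁ - 2) * (Real.log z) ^ (3 / 4 : ℝ) ≤
      ∏ l ∈ (Finset.Icc 1 z).filter (fun l => l.Prime ∧ l ∉ S), (1 + 1 / (l : ℝ)) := by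
  have hlog : 0 < Real.log z := Real.log_pos (by exact_mod_cast (by omega : 1 < z))
  have h1 : Real.exp (∑ l ∈ (Finset.Icc 1 z).filter (fun l => l.Prime ∧ l ∉ S),
      ((1 : ℝ) / l - ((1 : ℝ) / l) ^ 2)) ≤
      ∏ l ∈ (Finset.Icc 1 z).filter (fun l => l.Prime ∧ l ∉ S), (1 + 1 / (l : ℝ)) := by
    rw [Real.exp_sum]
    exact Finset.prod_le_prod (fun _ _ => (Real.exp_pos _).le)
      (fun l _ => one_add_ge _ (by positivity))
  refine le_trans ?_ h1
  rw [Real.rpow_def_of_pos hlog, ← Real.exp_add]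
  refine Real.exp_le_exp.2 ?_
  rw [sum_sub_distrib]
  have h2 : ∑ l ∈ (Finset.Icc 1 z).filter (fun l => l.Prime ∧ l ∉ S), ((1 : ℝ) / l) ^ 2 ≤ 2 := by
    refine le_trans ?_ (sum_inv_sq_le z)
    refine (sum_le_sum_of_subset_of_nonneg (filter_subset _ _) (fun _ _ _ => by positivity)).trans
      (le_of_eq (sum_congr rfl fun l _ => ?_))
    rw [one_div, inv_pow]
  have h3 := (abs_le.1 h).1
  linarith

theorem prod_le_of_subset (A A' : Finset ℕ) (f : ℕ → ℝ) (hA : A ⊆ A') (hf : ∀ l, 1 ≤ f l) :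
    ∏ l ∈ A, f l ≤ ∏ l ∈ A', f l := by
  rw [← Finset.prod_sdiff hA]
  have h1 : (1 : ℝ) ≤ ∏ l ∈ A' \ A, f l :=
    Finset.prod_induction f (fun x => (1 : ℝ) ≤ x)
      (fun a b ha hb => one_le_mul_of_one_le_of_one_le ha hb) le_rfl (fun l _ => hf l)
  have h2 : (0 : ℝ) ≤ ∏ l ∈ A, f l :=
    prod_nonneg fun l _ => le_trans zero_le_one (hf l)
  nlinarith

/-- Counting by the sieve. -/
theorem count (hSv : NsieveStmt) (S : Set ℕ) (y t a D : ℕ) (P : Finset ℕ)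
    (hD : 1 ≤ D) (hP : ∀ l ∈ P, l.Prime ∧ l ∉ S ∧ ¬ l ∣ t) :
    (((qset S 0 y).filter (fun n => n ≡ a [MOD t])).card : ℝ) ≤
      ((y / t + 1 : ℕ) : ℝ) / (∑ s ∈ sfs P D, ∏ l ∈ s.primeFactors, (1 : ℝ) / l) + (D : ℝ) ^ 4 := by
  obtain ⟨a', ha'⟩ : ∃ a', a' = a % t := ⟨_, rfl⟩
  obtain ⟨Ω, hΩ⟩ : ∃ Ω : ℕ → Finset ℕ, Ω = fun l =>
    {(-(a' : ZMod l) * (t : ZMod l)⁻¹).val} := ⟨_, rfl⟩
  have hcard : ∀ l, (Ω l).card = 1 := fun l => by rw [hΩ]; simp
  have key := hSv P Ω (y / t + 1) D hD (by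
    intro l hl
    obtain ⟨hpr, -, -⟩ := hP l hl
    have : NeZero l := ⟨hpr.ne_zero⟩
    refine ⟨hpr, ?_, by rw [hcard]; norm_num, by rw [hcard], by rw [hcard]; exact hpr.one_lt⟩
    intro r hr
    rw [hΩ] at hr
    simp only [mem_singleton] at hr
    rw [hr]
    exact ZMod.val_lt _)
  have hsum : ∑ s ∈ sfs P D, ∏ l ∈ s.primeFactors, ((Ω l).card : ℝ) / l =
      ∑ s ∈ sfs P D, ∏ l ∈ s.primeFactors, (1 : ℝ) / l := by
    refine sum_congr rfl fun s _ => prod_congr rfl fun l _ => ?_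
    rw [hcard]; norm_num
  rw [hsum] at key
  refine le_trans ?_ key
  have hinj : Set.InjOn (fun n : ℕ => n / t)
      (((qset S 0 y).filter (fun n => n ≡ a [MOD t]) : Finset ℕ) : Set ℕ) := by
    intro n hn n' hn' he
    simp only [coe_filter, Set.mem_ofPred_eq] at hn hn'
    have h1 : n % t = n' % t := hn.2.trans hn'.2.symm
    have h2 := Nat.div_add_mod n t
    have h3 := Nat.div_add_mod n' t
    simp only at he
    rw [← h2, ← h3, he, h1]
  have hle : ((qset S 0 y).filter (fun n => n ≡ a [MOD t])).card ≤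
      ((range (y / t + 1)).filter (fun w => ∀ l ∈ P, w % l ∉ Ω l)).card := by
    refine card_le_card_of_injOn _ ?_ hinj
    intro n hn
    simp only [coe_filter, Set.mem_ofPred_eq, mem_filter, qset, mem_Ioc, mem_range] at hn ⊢
    obtain ⟨⟨⟨hn0, hny⟩, hnQ⟩, hna⟩ := hn
    refine ⟨Nat.lt_succ_of_le (Nat.div_le_div_right hny), ?_⟩
    intro l hl hmem
    obtain ⟨hpr, hlS, hlt⟩ := hP l hl
    have : Fact l.Prime := ⟨hpr⟩
    rw [hΩ] at hmem
    simp only [mem_singleton] at hmem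
    have h1 : ((n / t : ℕ) : ZMod l) = -(a' : ZMod l) * (t : ZMod l)⁻¹ := by
      have h2 : (((n / t) % l : ℕ) : ZMod l) =
          (((-(a' : ZMod l) * (t : ZMod l)⁻¹).val : ℕ) : ZMod l) := by rw [hmem]
      rw [ZMod.natCast_mod, ZMod.natCast_zmod_val] at h2
      exact h2
    have ht0 : (t : ZMod l) ≠ 0 := by
      rw [Ne, ZMod.natCast_eq_zero_iff]
      exact hlt
    have h3 : ((n : ℕ) : ZMod l) = 0 := by
      have h4 : n = t * (n / t) + a' := by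
        rw [ha', ← (show n % t = a % t from hna)]
        exact (Nat.div_add_mod n t).symm
      rw [h4]
      push_cast
      rw [h1]
      field_simp
      ring
    rw [ZMod.natCast_eq_zero_iff] at h3
    exact hlS (hnQ.2 l hpr h3)
  exact_mod_cast hle

/-- NSINGLE -/
theorem nsingle (hSv : NsieveStmt) (hRa : NrankinStmt) (hRe : NrecStmt) : NsingleStmt := by
  intro S hS
  obtain ⟨B, D₀, hB, hRa⟩ := hRa
  obtain ⟨C₁, hC₁⟩ := hRe S hS
  obtain ⟨T, hT⟩ : ∃ T : ℕ, T = max 3 D₀ := ⟨_, rfl⟩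
  have hT3 : 3 ≤ T := by rw [hT]; exact le_max_left _ _
  have hTD : D₀ ≤ T := by rw [hT]; exact le_max_right _ _
  obtain ⟨c, hc⟩ : ∃ c : ℝ, c = Real.exp (-C₁ - 2) := ⟨_, rfl⟩
  have hc0 : 0 < c := by rw [hc]; exact Real.exp_pos _
  refine ⟨4 * (32 * B : ℝ) ^ (3 / 4 : ℝ) / c + 3, T ^ (32 * B), ?_⟩
  intro y hy t a ht hty hat
  have hBpos : 0 < B := by omega
  have hBR : (0 : ℝ) < 32 * B := by positivity
  have hy1 : 1 ≤ y := le_trans (Nat.one_le_pow _ _ (by omega)) hy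
  have hyR : (1 : ℝ) ≤ y := by exact_mod_cast hy1
  -- the parameters
  obtain ⟨x, hx⟩ : ∃ x : ℝ, x = (y : ℝ) ^ ((1 : ℝ) / (32 * B)) := ⟨_, rfl⟩
  have hxT : (T : ℝ) ≤ x := by
    rw [hx]
    have h1 : ((T : ℝ) ^ (32 * B)) ^ ((1 : ℝ) / (32 * B)) = T := by
      rw [← Real.rpow_natCast, ← Real.rpow_mul (by positivity)]
      push_cast
      rw [mul_one_div_cancel hBR.ne', Real.rpow_one]
    rw [← h1]
    refine Real.rpow_le_rpow (by positivity) ?_ (by positivity)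
    exact_mod_cast hy
  have hx3 : (3 : ℝ) ≤ x := le_trans (by exact_mod_cast hT3) hxT
  have hxpow : x ^ (32 * B) = y := by
    rw [hx, ← Real.rpow_natCast, ← Real.rpow_mul (by positivity)]
    push_cast
    rw [one_div_mul_cancel hBR.ne', Real.rpow_one]
  have hlogx : Real.log x = Real.log y / (32 * B) := by
    rw [hx, Real.log_rpow (by positivity)]
    ring
  obtain ⟨z, hz⟩ : ∃ z : ℕ, z = ⌊x ^ 2⌋₊ := ⟨_, rfl⟩
  have hzx : x ≤ z := by
    have h1 : x ^ 2 < (z : ℝ) + 1 := by rw [hz]; exact Nat.lt_floor_add_one _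
    nlinarith
  have hzx2 : (z : ℝ) ≤ x ^ 2 := by rw [hz]; exact Nat.floor_le (by positivity)
  have hz3 : 3 ≤ z := by
    have : (3 : ℝ) ≤ z := le_trans hx3 hzx
    exact_mod_cast this
  have hzD₀ : D₀ ≤ z := by
    have : (T : ℝ) ≤ z := le_trans hxT hzx
    exact hTD.trans (by exact_mod_cast this)
  obtain ⟨D, hD⟩ : ∃ D : ℕ, D = z ^ B := ⟨_, rfl⟩
  have hzDle : z ≤ D := by rw [hD]; exact Nat.le_self_pow hBpos.ne' z
  -- the set of primes
  obtain ⟨P, hPdef⟩ : ∃ P : Finset ℕ, P = (Finset.Icc 1 z).filter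
    (fun l => (l.Prime ∧ l ∉ S) ∧ ¬ l ∣ t) := ⟨_, rfl⟩
  have hP : ∀ l ∈ P, l.Prime ∧ l ∉ S ∧ ¬ l ∣ t := by
    intro l hl
    rw [hPdef, mem_filter] at hl
    exact ⟨hl.2.1.1, hl.2.1.2, hl.2.2⟩
  have hPz : ∀ l ∈ P, l ≤ z := by
    intro l hl
    rw [hPdef, mem_filter, mem_Icc] at hl
    exact hl.1.2
  have hR := hRa D (hzD₀.trans hzDle) P (fun _ => 1) (by
    intro l hl
    refine ⟨(hP l hl).1, ?_, by norm_num, by norm_num⟩
    rw [hD]
    exact Nat.pow_le_pow_left (hPz l hl) B)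
  have hcount := count hSv S y t a D P (by omega) hP
  obtain ⟨G, hG⟩ : ∃ G : ℝ, G = ∑ s ∈ sfs P D, ∏ l ∈ s.primeFactors, (1 : ℝ) / l := ⟨_, rfl⟩
  rw [← hG] at hcount hR
  -- the product
  have hprod := prod_out_ge S C₁ z hz3 (hC₁ z hz3).2
  rw [← hc] at hprod
  have hφ : 0 < t.totient := Nat.totient_pos.2 ht
  have hφR : (0 : ℝ) < t.totient := by exact_mod_cast hφ
  have htR : (0 : ℝ) < t := by exact_mod_cast ht
  have hlogz : 0 < Real.log z := Real.log_pos (by exact_mod_cast (by omega : 1 < z))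
  have hsplit : ∏ l ∈ (Finset.Icc 1 z).filter (fun l => l.Prime ∧ l ∉ S), (1 + 1 / (l : ℝ)) ≤
      (∏ l ∈ P, (1 + 1 / (l : ℝ))) * ∏ l ∈ t.primeFactors, (1 + 1 / (l : ℝ)) := by
    have h1 := Finset.prod_filter_mul_prod_filter_not
      ((Finset.Icc 1 z).filter (fun l => l.Prime ∧ l ∉ S)) (fun l => ¬ l ∣ t)
      (fun l : ℕ => (1 + 1 / (l : ℝ)))
    rw [← h1]
    have h2 : ((Finset.Icc 1 z).filter (fun l => l.Prime ∧ l ∉ S)).filter (fun l => ¬ l ∣ t) = P := by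
      rw [hPdef, filter_filter]
    rw [h2]
    refine mul_le_mul_of_nonneg_left ?_ (prod_nonneg fun l _ => by positivity)
    refine prod_le_of_subset _ _ _ ?_ ?_
    · intro l hl
      simp only [mem_filter, not_not] at hl
      exact Nat.mem_primeFactors.2 ⟨hl.1.2.1, hl.2, by omega⟩
    · intro l
      have : (0 : ℝ) ≤ 1 / (l : ℝ) := by positivity
      linarith
  have hPlow : c * (Real.log z) ^ (3 / 4 : ℝ) * (t.totient / t) ≤ ∏ l ∈ P, (1 + 1 / (l : ℝ)) := by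
    have h1 := prod_pf_le t ht
    have h2 : 0 ≤ ∏ l ∈ P, (1 + 1 / (l : ℝ)) := prod_nonneg fun l _ => by positivity
    have h3 : (0 : ℝ) ≤ t.totient / t := by positivity
    calc c * (Real.log z) ^ (3 / 4 : ℝ) * (t.totient / t)
        ≤ ((∏ l ∈ P, (1 + 1 / (l : ℝ))) * ∏ l ∈ t.primeFactors, (1 + 1 / (l : ℝ))) *
          (t.totient / t) := mul_le_mul_of_nonneg_right (hprod.trans hsplit) h3
      _ = (∏ l ∈ P, (1 + 1 / (l : ℝ))) *
          ((∏ l ∈ t.primeFactors, (1 + 1 / (l : ℝ))) * (t.totient / t)) := by ring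
      _ ≤ (∏ l ∈ P, (1 + 1 / (l : ℝ))) * 1 := mul_le_mul_of_nonneg_left h1 h2
      _ = _ := mul_one _
  have hlogzy : Real.log y / (32 * B) ≤ Real.log z := by
    rw [← hlogx]
    exact Real.log_le_log (by linarith) hzx
  have hlogy : 0 < Real.log y := by
    have h1 : 0 < Real.log x := Real.log_pos (by linarith)
    rw [hlogx] at h1
    by_contra hcon
    push Not at hcon
    have := div_nonpos_of_nonpos_of_nonneg hcon hBR.le
    linarith
  obtain ⟨L, hL⟩ : ∃ L : ℝ, L = (Real.log y) ^ (3 / 4 : ℝ) := ⟨_, rfl⟩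
  have hL0 : 0 < L := by rw [hL]; exact Real.rpow_pos_of_pos hlogy _
  obtain ⟨E, hE⟩ : ∃ E : ℝ, E = (32 * B : ℝ) ^ (3 / 4 : ℝ) := ⟨_, rfl⟩
  have hE0 : 0 < E := by rw [hE]; exact Real.rpow_pos_of_pos hBR _
  have hLz : L / E ≤ (Real.log z) ^ (3 / 4 : ℝ) := by
    rw [hL, hE, ← Real.div_rpow hlogy.le hBR.le]
    exact Real.rpow_le_rpow (by positivity) hlogzy (by norm_num)
  have hGlow : c * (L / E) * (t.totient / t) / 2 ≤ G := by
    have h1 : c * (L / E) * (t.totient / t) ≤ c * (Real.log z) ^ (3 / 4 : ℝ) * (t.totient / t) := by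
      refine mul_le_mul_of_nonneg_right (mul_le_mul_of_nonneg_left hLz hc0.le) (by positivity)
    have h2 : (1 / 2 : ℝ) * ∏ l ∈ P, (1 + 1 / (l : ℝ)) ≤ G := hR
    linarith [hPlow]
  have hG0 : 0 < c * (L / E) * (t.totient / t) / 2 := by positivity
  -- the main term
  have htyR : (t : ℝ) ^ 2 ≤ y := by exact_mod_cast hty
  have ht1R : (1 : ℝ) ≤ t := by exact_mod_cast ht
  have htle : (t : ℝ) ≤ y := by nlinarith
  have hM : ((y / t + 1 : ℕ) : ℝ) ≤ 2 * y / t := by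
    have h1 : ((y / t : ℕ) : ℝ) ≤ y / t := Nat.cast_div_le
    have h2 : (1 : ℝ) ≤ y / t := by rw [le_div_iff₀ htR]; linarith
    push_cast
    have h3 : (2 : ℝ) * y / t = y / t + y / t := by ring
    rw [h3]
    linarith
  have hmain : ((y / t + 1 : ℕ) : ℝ) / G ≤ 4 * E / c * (y / (t.totient * L)) := by
    calc ((y / t + 1 : ℕ) : ℝ) / G ≤ (2 * y / t) / (c * (L / E) * (t.totient / t) / 2) := by
          gcongr
      _ = 4 * E / c * (y / (t.totient * L)) := by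
          field_simp
          ring
  -- the error term
  have herr : (D : ℝ) ^ 4 ≤ 3 * (y / (t.totient * L)) := by
    have h1 : (D : ℝ) ^ 4 ≤ x ^ (8 * B) := by
      rw [hD]
      push_cast
      rw [← pow_mul]
      calc (z : ℝ) ^ (B * 4) ≤ (x ^ 2) ^ (B * 4) := pow_le_pow_left₀ (by positivity) hzx2 _
        _ = x ^ (8 * B) := by rw [← pow_mul]; congr 1; ring
    have h2 : x ^ (8 * B) = (y : ℝ) ^ (1 / 4 : ℝ) := by
      rw [← hxpow, ← Real.rpow_natCast x (32 * B), ← Real.rpow_mul (by linarith),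
        ← Real.rpow_natCast x (8 * B)]
      congr 1
      push_cast
      ring
    have h3 : (t.totient : ℝ) ≤ (y : ℝ) ^ (1 / 2 : ℝ) := by
      have h4 : (t.totient : ℝ) ≤ t := by exact_mod_cast Nat.totient_le t
      refine h4.trans ?_
      rw [← Real.sqrt_eq_rpow]
      exact Real.le_sqrt_of_sq_le htyR
    have h4 : L ≤ 3 * (y : ℝ) ^ (1 / 4 : ℝ) := by
      have h5 : Real.log y ≤ 3 * (y : ℝ) ^ (1 / 3 : ℝ) := by
        have := Real.log_natCast_le_rpow_div y (show (0 : ℝ) < 1 / 3 by norm_num)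
        linarith
      rw [hL]
      calc (Real.log y) ^ (3 / 4 : ℝ) ≤ (3 * (y : ℝ) ^ (1 / 3 : ℝ)) ^ (3 / 4 : ℝ) :=
            Real.rpow_le_rpow hlogy.le h5 (by norm_num)
        _ = 3 ^ (3 / 4 : ℝ) * (y : ℝ) ^ (1 / 4 : ℝ) := by
            rw [Real.mul_rpow (by norm_num) (by positivity), ← Real.rpow_mul (by positivity)]
            norm_num
        _ ≤ 3 * (y : ℝ) ^ (1 / 4 : ℝ) := by
            refine mul_le_mul_of_nonneg_right ?_ (by positivity)
            calc (3 : ℝ) ^ (3 / 4 : ℝ) ≤ 3 ^ (1 : ℝ) :=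
                  Real.rpow_le_rpow_of_exponent_le (by norm_num) (by norm_num)
              _ = 3 := Real.rpow_one 3
    have h6 : (y : ℝ) ^ (1 / 4 : ℝ) * (t.totient * L) ≤ 3 * y := by
      calc (y : ℝ) ^ (1 / 4 : ℝ) * (t.totient * L) ≤
          (y : ℝ) ^ (1 / 4 : ℝ) * ((y : ℝ) ^ (1 / 2 : ℝ) * (3 * (y : ℝ) ^ (1 / 4 : ℝ))) := by
            gcongr
        _ = 3 * ((y : ℝ) ^ (1 / 4 : ℝ) * (y : ℝ) ^ (1 / 2 : ℝ) * (y : ℝ) ^ (1 / 4 : ℝ)) := by ring
        _ = 3 * y := by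
            rw [← Real.rpow_add (by linarith), ← Real.rpow_add (by linarith)]
            norm_num
    rw [← mul_div_assoc, le_div_iff₀ (by positivity)]
    calc (D : ℝ) ^ 4 * (t.totient * L) ≤ (y : ℝ) ^ (1 / 4 : ℝ) * (t.totient * L) := by
          rw [← h2]
          exact mul_le_mul_of_nonneg_right h1 (by positivity)
      _ ≤ 3 * y := h6
  rw [← hE, ← hL]
  calc _ ≤ ((y / t + 1 : ℕ) : ℝ) / G + (D : ℝ) ^ 4 := hcount
    _ ≤ 4 * E / c * (y / (t.totient * L)) + 3 * (y / (t.totient * L)) := add_le_add hmain herr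
    _ = (4 * E / c + 3) * y / (t.totient * L) := by ring

end Pool.Agent.Lib.MP_ba0fa5_ag.H65
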